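import Pool.Agent.Run7.h71.CD.Stm

/-! Project CD (helper71), piece PAR: the span of a parallel pair of forms is constant. -/

set_option autoImplicit false

namespace Pool.Agent.Run7.h71.CD

open Set Filter Topology
open scoped ContDiff

theorem PAR_loc (O : Set E3) (y : E3 → ℝ × ℝ) (w : Fin 3 → Fin 4 → E3 → ℝ) (hO : IsOpen O)
    (hw : ∀ k r, ContinuousOn (w k r) O) (hy : ∀ X ∈ O, DifferentiableAt ℝ y X)
    (hd : ∀ X ∈ O, ∀ k, fderiv ℝ y X (Pi.single k 1) =
      (w k 0 X * (y X).1 + w k 1 X * (y X).2, w k 2 X * (y X).1 + w k 3 X * (y X).2))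
    (X : E3) (hX : X ∈ O) (hz : y X = 0) : ∀ᶠ Y in 𝓝 X, y Y = 0 := by
  have h1 : ∀ᶠ Y in 𝓝 X, ∀ k r, |w k r Y| ≤ |w k r X| + 1 := by
    rw [eventually_all]
    intro k
    rw [eventually_all]
    intro r
    have hc : ContinuousAt (fun Y => |w k r Y|) X :=
      ((hw k r).continuousAt (hO.mem_nhds hX)).abs
    have h2 := hc.eventually (gt_mem_nhds (show |w k r X| < |w k r X| + 1 by linarith))
    exact h2.mono fun Y hY => hY.le
  set M : ℝ := ∑ k, ∑ r, (|w k r X| + 1) with hMdef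
  have hM : ∀ k r, |w k r X| + 1 ≤ M := by
    intro k r
    have a1 : |w k r X| + 1 ≤ ∑ r, (|w k r X| + 1) :=
      Finset.single_le_sum (f := fun r => |w k r X| + 1) (fun i _ => by positivity)
        (Finset.mem_univ r)
    have a2 : ∑ r, (|w k r X| + 1) ≤ M :=
      Finset.single_le_sum (f := fun k => ∑ r, (|w k r X| + 1))
        (fun i _ => Finset.sum_nonneg fun j _ => by positivity) (Finset.mem_univ k)
    linarith
  obtain ⟨ε, hε, hb⟩ := Metric.eventually_nhds_iff_ball.1 (h1.and (hO.eventually_mem hX))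
  filter_upwards [Metric.ball_mem_nhds X hε] with Y hY
  set V := Y - X with hV
  have hVn : ‖V‖ < ε := by rwa [Metric.mem_ball, dist_eq_norm] at hY
  have hmem : ∀ t ∈ Icc (0 : ℝ) 1, X + t • V ∈ Metric.ball X ε := by
    intro t ht
    rw [Metric.mem_ball, dist_eq_norm, add_sub_cancel_left, norm_smul, Real.norm_eq_abs,
      abs_of_nonneg ht.1]
    calc t * ‖V‖ ≤ 1 * ‖V‖ := by
          apply mul_le_mul_of_nonneg_right ht.2 (norm_nonneg _)
      _ < ε := by rwa [one_mul]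
  have hder : ∀ t ∈ Icc (0 : ℝ) 1,
      HasDerivAt (fun t : ℝ => y (X + t • V)) (fderiv ℝ y (X + t • V) V) t := by
    intro t ht
    have e1 := (hy _ (hb _ (hmem t ht)).2).hasFDerivAt
    have e2 : HasDerivAt (fun t : ℝ => X + t • V) V t := by
      have := ((hasDerivAt_id t).smul_const V).const_add X
      simpa using this
    exact e1.comp_hasDerivAt t e2
  have hbd : ∀ t ∈ Icc (0 : ℝ) 1,
      ‖fderiv ℝ y (X + t • V) V‖ ≤ ((∑ k, |V k|) * (2 * M)) * ‖y (X + t • V)‖ := by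
    intro t ht
    have hb' := hb _ (hmem t ht)
    set P := X + t • V with hP
    have hVs : V = ∑ k, V k • (Pi.single k (1 : ℝ) : E3) := by
      ext i
      simp [Finset.sum_apply, Pi.single_apply]
    have e3 : fderiv ℝ y P V = ∑ k, V k • fderiv ℝ y P (Pi.single k 1) := by
      conv_lhs => rw [hVs]
      rw [map_sum]
      simp only [map_smul]
    rw [e3]
    have hn1 : |(y P).1| ≤ ‖y P‖ := by
      rw [← Real.norm_eq_abs]; exact norm_fst_le (y P)
    have hn2 : |(y P).2| ≤ ‖y P‖ := by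
      rw [← Real.norm_eq_abs]; exact norm_snd_le (y P)
    have hwM : ∀ k r, |w k r P| ≤ M := fun k r => (hb'.1 k r).trans (hM k r)
    have hM0 : 0 ≤ M := (abs_nonneg _).trans (hwM 0 0)
    calc ‖∑ k, V k • fderiv ℝ y P (Pi.single k 1)‖
        ≤ ∑ k, ‖V k • fderiv ℝ y P (Pi.single k 1)‖ := norm_sum_le _ _
      _ ≤ ∑ k, |V k| * ((2 * M) * ‖y P‖) := by
          apply Finset.sum_le_sum
          intro k _
          rw [norm_smul, Real.norm_eq_abs]
          apply mul_le_mul_of_nonneg_left _ (abs_nonneg _)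
          rw [hd P hb'.2 k]
          rw [Prod.norm_def, sup_le_iff]
          have key : ∀ r s, |w k r P * (y P).1 + w k s P * (y P).2| ≤ (2 * M) * ‖y P‖ := by
            intro r s
            calc |w k r P * (y P).1 + w k s P * (y P).2|
                ≤ |w k r P * (y P).1| + |w k s P * (y P).2| := abs_add_le _ _
              _ = |w k r P| * |(y P).1| + |w k s P| * |(y P).2| := by rw [abs_mul, abs_mul]
              _ ≤ M * ‖y P‖ + M * ‖y P‖ :=
                  add_le_add (mul_le_mul (hwM k r) hn1 (abs_nonneg _) hM0)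
                    (mul_le_mul (hwM k s) hn2 (abs_nonneg _) hM0)
              _ = (2 * M) * ‖y P‖ := by ring
          exact ⟨key 0 1, key 2 3⟩
      _ = ((∑ k, |V k|) * (2 * M)) * ‖y P‖ := by
          rw [← Finset.sum_mul]; ring
  have hfin := eq_zero_of_abs_deriv_le_mul_abs_self_of_eq_zero_right
    (f := fun t : ℝ => y (X + t • V)) (f' := fun t => fderiv ℝ y (X + t • V) V)
    (K := (∑ k, |V k|) * (2 * M)) (a := 0) (b := 1)
    (fun t ht => (hder t ht).continuousAt.continuousWithinAt)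
    (fun t ht => (hder t ⟨ht.1, ht.2.le⟩).hasDerivWithinAt)
    (by
      show y (X + (0 : ℝ) • V) = 0
      rw [zero_smul, add_zero]
      exact hz) (fun t ht => hbd t ⟨ht.1, ht.2.le⟩) 1 ⟨zero_le_one, le_rfl⟩
  have hY1 : X + (1 : ℝ) • V = Y := by rw [one_smul, hV, add_sub_cancel]
  have hfin' : y (X + (1 : ℝ) • V) = 0 := hfin
  rwa [hY1] at hfin'

theorem PAR_glob (O : Set E3) (y : E3 → ℝ × ℝ) (w : Fin 3 → Fin 4 → E3 → ℝ) (hO : IsOpen O)
    (hc : IsConnected O)
    (hw : ∀ k r, ContinuousOn (w k r) O) (hy : ∀ X ∈ O, DifferentiableAt ℝ y X)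
    (hd : ∀ X ∈ O, ∀ k, fderiv ℝ y X (Pi.single k 1) =
      (w k 0 X * (y X).1 + w k 1 X * (y X).2, w k 2 X * (y X).1 + w k 3 X * (y X).2))
    (X₀ : E3) (h0 : X₀ ∈ O) (hz : y X₀ = 0) : ∀ X ∈ O, y X = 0 := by
  set u : Set E3 := {X | X ∈ O ∧ y X = 0} with hu
  have huo : IsOpen u := by
    rw [isOpen_iff_mem_nhds]
    rintro X ⟨hX, hX0⟩
    exact (hO.eventually_mem hX).and (PAR_loc O y w hO hw hy hd X hX hX0)
  have hsub : O ⊆ u := by
    apply hc.isPreconnected.subset_of_closure_inter_subset huo ⟨X₀, h0, h0, hz⟩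
    rintro X ⟨hX, hXO⟩
    refine ⟨hXO, ?_⟩
    rw [mem_closure_iff_frequently] at hX
    by_contra hne
    have hcy : ContinuousAt y X := (hy X hXO).continuousAt
    have := hcy.eventually_ne hne
    exact (hX.and_eventually this).exists.elim fun Y hY => hY.2 hY.1.2
  exact fun X hX => (hsub hX).2

theorem PAR_lin (ℓ : Matrix (Fin 3) (Fin 3) ℝ →ₗ[ℝ] ℝ) (M : Matrix (Fin 3) (Fin 3) ℝ) :
    ℓ M = ∑ i, ∑ j, M i j * ℓ (Matrix.single i j 1) := by
  conv_lhs => rw [Matrix.matrix_eq_sum_single M]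
  rw [map_sum]
  refine Finset.sum_congr rfl fun i _ => ?_
  rw [map_sum]
  refine Finset.sum_congr rfl fun j _ => ?_
  have : Matrix.single i j (M i j) = (M i j) • Matrix.single i j (1 : ℝ) := by
    rw [Matrix.smul_single, smul_eq_mul, mul_one]
  rw [this, map_smul, smul_eq_mul]

theorem PAR_zero (O : Set E3) (B C : E3 → Matrix (Fin 3) (Fin 3) ℝ)
    (w : Fin 3 → Fin 4 → E3 → ℝ) (hO : IsOpen O) (hc : IsConnected O) (hP : Par O B C w)
    (ℓ : Matrix (Fin 3) (Fin 3) ℝ →ₗ[ℝ] ℝ) (X₀ : E3) (h0 : X₀ ∈ O) (hB : ℓ (B X₀) = 0)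
    (hC : ℓ (C X₀) = 0) : ∀ X ∈ O, ℓ (B X) = 0 ∧ ℓ (C X) = 0 := by
  have dif : ∀ (D : E3 → Matrix (Fin 3) (Fin 3) ℝ),
      (∀ i j, ContDiffOn ℝ ∞ (fun X => D X i j) O) → ∀ X ∈ O,
      HasFDerivAt (fun X => ℓ (D X))
        (∑ i, ∑ j, ℓ (Matrix.single i j 1) • fderiv ℝ (fun X => D X i j) X) X := by
    intro D hD X hX
    have e : (fun X => ℓ (D X)) = fun X => ∑ i, ∑ j, D X i j * ℓ (Matrix.single i j 1) := by
      funext X
      exact PAR_lin ℓ (D X)
    rw [e]
    refine HasFDerivAt.fun_sum fun i _ => HasFDerivAt.fun_sum fun j _ => ?_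
    have := ((hD i j).contDiffAt (hO.mem_nhds hX)).differentiableAt (by simp)
    exact this.hasFDerivAt.mul_const _
  have der : ∀ (D : E3 → Matrix (Fin 3) (Fin 3) ℝ),
      (∀ i j, ContDiffOn ℝ ∞ (fun X => D X i j) O) → ∀ X ∈ O, ∀ (k : Fin 3) (α β : ℝ),
      (∀ i j, fderiv ℝ (fun X => D X i j) X (Pi.single k 1) = α * B X i j + β * C X i j) →
      fderiv ℝ (fun X => ℓ (D X)) X (Pi.single k 1) = α * ℓ (B X) + β * ℓ (C X) := by
    intro D hD X hX k α β h
    rw [(dif D hD X hX).fderiv, PAR_lin ℓ (B X), PAR_lin ℓ (C X)]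
    simp only [sum_apply, smul_apply, smul_eq_mul, h,
      Finset.mul_sum]
    rw [← Finset.sum_add_distrib]
    refine Finset.sum_congr rfl fun i _ => ?_
    rw [← Finset.sum_add_distrib]
    refine Finset.sum_congr rfl fun j _ => ?_
    ring
  have main := PAR_glob O (fun X => (ℓ (B X), ℓ (C X))) w hO hc hP.cw
    (fun X hX => ((dif B hP.cB X hX).differentiableAt).prodMk
      (dif C hP.cC X hX).differentiableAt)
    (fun X hX k => by
      have hBd := (dif B hP.cB X hX).differentiableAt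
      have hCd := (dif C hP.cC X hX).differentiableAt
      rw [DifferentiableAt.fderiv_prodMk hBd hCd, ContinuousLinearMap.prod_apply,
        der B hP.cB X hX k _ _ (hP.dB X hX k), der C hP.cC X hX k _ _ (hP.dC X hX k)])
    X₀ h0 (by simp [hB, hC])
  intro X hX
  have := main X hX
  simpa using this

theorem PAR : S_PAR := by
  intro O B C w hO hc hP X₀ h0 X hX
  have key : ∀ M : Matrix (Fin 3) (Fin 3) ℝ,
      (∀ ℓ : Matrix (Fin 3) (Fin 3) ℝ →ₗ[ℝ] ℝ, ℓ (B X₀) = 0 → ℓ (C X₀) = 0 → ℓ M = 0) →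
      ∃ α β : ℝ, M = α • B X₀ + β • C X₀ := by
    intro M hM
    have hmem : M ∈ Submodule.span ℝ {B X₀, C X₀} := by
      by_contra hn
      obtain ⟨f, hf, hle⟩ := Submodule.exists_le_ker_of_notMem hn
      apply hf
      apply hM f
      · exact hle (Submodule.subset_span (by simp))
      · exact hle (Submodule.subset_span (by simp))
    obtain ⟨α, β, h⟩ := Submodule.mem_span_pair.1 hmem
    exact ⟨α, β, h.symm⟩
  constructor
  · exact key _ fun ℓ h1 h2 => (PAR_zero O B C w hO hc hP ℓ X₀ h0 h1 h2 X hX).1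
  · exact key _ fun ℓ h1 h2 => (PAR_zero O B C w hO hc hP ℓ X₀ h0 h1 h2 X hX).2

end Pool.Agent.Run7.h71.CD
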